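import Pool.Agent.Q283.EN.Stm2

set_option autoImplicit false

/-!
# Project EN of helper283, job CLAW: the law for the cubic twists
-/

namespace Pool.Agent.Q164.EN

open NumberField IsDedekindDomain Filter Topology Finset WeierstrassCurve
open Pool.Agent.Q283.LQ (Sm Box Nest nS)
open Pool.Agent.Q7.LK Pool.Agent.Q7.CE Pool.Agent.Q283.EN
open Pool.Agent.TH841.SH.D (Pt)

theorem nest_mono : ∀ (k : ℕ) (P Q : (Fin k → ℕ) → Prop), (∀ X, P X → Q X) → Nest k P → Nest k Q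
  | 0, _, _, h, hP => h _ hP
  | k + 1, P, Q, h, hP => nest_mono k _ _ (fun X hX => by
      filter_upwards [hX] with x hx using h _ hx) hP

theorem hasN_congr {F : Type} [Field F] {p : ℕ} {P Q : F → Prop} (h : ∀ a, P a ↔ Q a) (N : ℕ) :
    HasN p P N ↔ HasN p Q N := by
  have e : P = Q := funext fun a => propext (h a)
  rw [e]

section loc

variable {F : Type} [Field F] [NumberField F]

theorem ex_place : Nonempty (HeightOneSpectrum (𝓞 F)) := by
  by_contra hcon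
  have hf : IsField (𝓞 F) := by
    by_contra hf
    obtain ⟨I, hI1, hI2⟩ := Ring.not_isField_iff_exists_prime.1 hf
    exact hcon ⟨⟨I, hI2, hI1⟩⟩
  exact RingOfIntegers.not_isField F hf

/-- `Lpw` for inverse quotients -/
theorem lpw_div (hBAS : S_BAS) {v : HeightOneSpectrum (𝓞 F)} {a b c : F} (hc : c ≠ 0)
    (h1 : Lpw 3 v (a / c)) (h2 : Lpw 3 v (b / c)) : Lpw 3 v (a / b) := by
  have : Fact (Nat.Prime 3) := ⟨Nat.prime_three⟩
  obtain ⟨b1, b2, b3, b4, -, -, -⟩ := hBAS 3 F v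
  have hb : b ≠ 0 := by
    intro h
    exact (b1 _ h2).1 (by rw [h, zero_div])
  have e : a / b = (a / c) * (b / c)⁻¹ := by
    field_simp
  rw [e]
  exact b2 _ _ h1 (b4 _ h2)

/-- change of `D` -/
theorem ae_change (hELOC : S_ELOC) {v : HeightOneSpectrum (𝓞 F)} {D D' a : F} (hD : D ≠ 0)
    (h : Lpw 3 v (D' / D)) (ha : AE v D a) : AE v D' a := by
  have h1 := (hELOC F v D hD).2.1 (D' / D) a h ha
  rwa [mul_div_cancel₀ _ hD] at h1

theorem ae_one (v : HeightOneSpectrum (𝓞 F)) (D : F) : AE v D 1 := by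
  refine ⟨one_ne_zero, 1, 1, 0, Or.inl one_ne_zero, ?_⟩
  have e : ((1 : F) : v.adicCompletion F) = 1 := map_one (algebraMap F (v.adicCompletion F))
  rw [e]
  ring

end loc

theorem claw : S_LAWX → Pool.Agent.Q7.LK.S_BASE → Pool.Agent.Q7.LK.S_LOC → Pool.Agent.Q7.LK.S_HS2 →
    Pool.Agent.Q7.LK.S_BAS → Pool.Agent.Q7.CE.S_ELOC → Pool.Agent.Q7.CE.S_EISO → Pool.Agent.Q7.CE.S_FEND →
    S_AEC → S_VAL → S_UNQ → S_IDX3 → S_ECX → S_CLAW := by
  intro hLAWX hBASE hLOC hHS2 hBAS hELOC hEISO hFEND hAEC hVAL hUNQ hIDX hECX F _ _ ω hω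
  have : Fact (Nat.Prime 3) := ⟨Nat.prime_three⟩
  have h32 : (3 : ℕ) ≠ 2 := by norm_num
  have hPB : P_BASE 3 F ω := hBASE 3 h32 F ω hω
  have hPL : P_LOC 3 F := hLOC 3 h32 F ω hω
  obtain ⟨t, t1, t2, t3, t4, t5, t6⟩ := hHS2 3 h32 F ω hω
  have ht : Hilb 3 ω t := ⟨t1, t2, t3, t4, t5, t6⟩
  have hHi : Hi 3 F := fun h => absurd h h32
  obtain ⟨y1, hy1⟩ := hLAWX 3 F ω hω hHi hPB hPL t ht
  obtain ⟨y2, hy2⟩ := hUNQ 3 F ω hPB
  refine ⟨max y1 y2, fun y hy D0 hD0 R ε hε => ?_⟩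
  obtain ⟨hy3, hcube, -⟩ := hy2 y ((le_max_right _ _).trans hy)
  have hDp : ∀ v : HeightOneSpectrum (𝓞 F), ¬ Sm y v → ¬ Dp 3 v := by
    intro v hv h
    exact hv ⟨3, Nat.prime_three, hy3, h⟩
  -- the local groups
  have hX : LocX 3 t y (fun v => AE v D0) (fun v => dv 3 v / 2) := by
    refine ⟨fun v a _ h => h.1, ?_, ?_, ?_, ?_, ?_⟩
    · intro v a b _ ha hb
      obtain ⟨P, hP⟩ := (hAEC F v D0 a hD0 ha.1).1 ha
      obtain ⟨Q, hQ⟩ := (hAEC F v D0 b hD0 hb.1).1 hb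
      obtain ⟨θ, θ', -, -, -, hcl, -⟩ := hFEND F ω D0 hω hD0
      have h1 := (hcl (v.adicCompletion F) P).2.2.2.1 Q _ _ hP hQ
      refine (hAEC F v D0 (a * b) hD0 (mul_ne_zero ha.1 hb.1)).2 ⟨P + Q, ?_⟩
      have e : ((a * b : F) : v.adicCompletion F) = (a : v.adicCompletion F) * (b : v.adicCompletion F) :=
        map_mul (algebraMap F (v.adicCompletion F)) a b
      rw [e]
      exact h1
    · intro v b _ hb
      have h1 := (hELOC F v D0 hD0).1 1 b (ae_one v D0) hb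
      rwa [one_mul] at h1
    · intro v a b _ ha hb
      exact hEISO F ω hω t ht v D0 a b hD0 ha hb
    · intro v _
      exact hIDX F ω hω v D0 hD0
    · intro v hv
      have : dv 3 v = 0 := if_neg (hDp v hv)
      show dv 3 v / 2 = 0
      rw [this]
  have hsum := (hVAL 3 F ω hω hHi).2
  have hAD : ∀ v, Sm y v → AE v D0 D0 := by
    intro v _
    have h1 := (hELOC F v D0 hD0).2.2.1 1 (ae_one v D0)
    rwa [one_mul] at h1
  obtain ⟨k0, hk0⟩ := hy1 y ((le_max_left _ _).trans hy) (fun v => AE v D0) (fun v => dv 3 v / 2) hX hsum D0 hD0 hAD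
    R ε hε
  refine ⟨k0, fun k hk z hz => ?_⟩
  -- the conditions
  have hcond : ∀ (q : Fin k → HeightOneSpectrum (𝓞 F)) (D : F), Fits 3 y D0 z q D → ∀ a : F,
      (∀ v : HeightOneSpectrum (𝓞 F), AE v D a) ↔ CondX 3 y (fun v => AE v D0) D a := by
    intro q D hD a
    have hD0D : ∀ v, Sm y v → Lpw 3 v (D0 / D) := by
      intro v hv
      have h1 := (hBAS 3 F v).2.2.2.1 _ (hD.loc v hv)
      rwa [inv_div] at h1
    constructor
    · intro h
      obtain ⟨v0⟩ := ex_place (F := F)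
      have ha : a ≠ 0 := (h v0).1
      exact ⟨ha, fun v hv => ((hECX F ω hω v D a (hDp v hv) hD.ne ha).1 (h v)).1,
        fun v hv => ((hECX F ω hω v D a (hDp v hv) hD.ne ha).1 (h v)).2,
        fun v hv => ae_change hELOC hD.ne (hD0D v hv) (h v)⟩
    · intro h v
      by_cases hv : Sm y v
      · exact ae_change hELOC hD0 (hD.loc v hv) (h.loc v hv)
      · exact (hECX F ω hω v D a (hDp v hv) hD.ne h.ne).2 ⟨h.unr v hv, h.ram v hv⟩
  have hsame : ∀ (q : Fin k → HeightOneSpectrum (𝓞 F)) (D D' : F), Fits 3 y D0 z q D → Fits 3 y D0 z q D' → ∀ a : F,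
      (∀ v : HeightOneSpectrum (𝓞 F), AE v D a) → ∀ v : HeightOneSpectrum (𝓞 F), AE v D' a := by
    intro q D D' hD hD' a ha v
    obtain ⟨x, hx⟩ := hcube (D' / D) (div_ne_zero hD'.ne hD.ne) (by
      intro v hv
      have h1 := (hBAS 3 F v).2.2.2.2.1 (D' / D) D (div_ne_zero hD'.ne hD.ne) hD.ne
      rw [div_mul_cancel₀ _ hD.ne, hD'.ram v hv, hD.ram v hv] at h1
      exact right_eq_add.1 h1) (fun v hv => lpw_div hBAS hD0 (hD'.loc v hv) (hD.loc v hv))
    have hx0 : x ≠ 0 := by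
      rintro rfl
      exact div_ne_zero hD'.ne hD.ne (hx.trans (by norm_num))
    refine ae_change hELOC hD.ne ?_ (ha v)
    rw [hx]
    exact (hBAS 3 F v).2.2.1 x hx0
  have hiff : ∀ (q : Fin k → HeightOneSpectrum (𝓞 F)) (n : ℕ),
      (∃ D, Fits 3 y D0 z q D ∧ HasN 3 (CondX 3 y (fun v => AE v D0) D) n) ↔
      ((∃ D, Fits 3 y D0 z q D) ∧ ∀ D, Fits 3 y D0 z q D → HasN 3 (fun a : F => ∀ v : HeightOneSpectrum (𝓞 F), AE v D a) n) := by
    intro q n
    constructor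
    · rintro ⟨D, hD, hN⟩
      refine ⟨⟨D, hD⟩, fun D' hD' => ?_⟩
      refine (hasN_congr (fun a => ?_) n).1 hN
      rw [← hcond q D hD a]
      exact ⟨hsame q D D' hD hD' a, hsame q D' D hD' hD a⟩
    · rintro ⟨⟨D, hD⟩, h⟩
      exact ⟨D, hD, (hasN_congr (fun a => hcond q D hD a) n).1 (h D hD)⟩
  refine nest_mono k _ _ ?_ (hk0 k hk z hz)
  rintro X ⟨a1, a2, a3, -, a5⟩
  refine ⟨a1, a2, ?_, ?_⟩
  · intro r hr
    have e : {q ∈ (Box y X : Set (Fin k → HeightOneSpectrum (𝓞 F))) | (∃ D, Fits 3 y D0 z q D) ∧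
          ∀ D, Fits 3 y D0 z q D → HasN 3 (fun a : F => ∀ v : HeightOneSpectrum (𝓞 F), AE v D a) (3 ^ (r + 1))} =
        {q ∈ (Box y X : Set (Fin k → HeightOneSpectrum (𝓞 F))) |
          ∃ D, Fits 3 y D0 z q D ∧ HasN 3 (CondX 3 y (fun v => AE v D0) D) (3 ^ (r + 1))} := by
      ext q
      exact and_congr_right fun _ => (hiff q _).symm
    rw [e]
    exact a3 r hr
  · intro B N hB hN
    have h1 := a5 B N hB (fun q hq => by
      obtain ⟨D, hD, h⟩ := hN q hq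
      exact ⟨D, hD, (hasN_congr (fun a => hcond q D hD a) _).1 h⟩)
    exact h1

end Pool.Agent.Q164.EN
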